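import Pool.Agent.Q18.UFB4

/-!
# MP_9e6215_co: uniformly factor-balanced words of superlinear factor complexity

There is an infinite word over a finite alphabet which is uniformly factor-balanced and whose
factor complexity is superlinear (Q1 has the answer yes).

The word is a hierarchical word with permuted rows: the blocks of level `k + 1` are products of all
blocks of level `k`, in the natural order up to the exchange of some far pairs of neighbours of
fixed distance, and the exchanges code the bits of a two-dimensional net.
-/

namespace Pool.Agent.Results.MP_9e6215_co.SuperlinearWord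

open Finset Pool.Agent.Q18.UFB

variable {A : Type*}

/-- the block of length `n` of the word `x` which starts at the position `i` -/
def factorAt (x : ℕ → A) (i n : ℕ) : List A := (List.range n).map (fun t => x (i + t))

/-- the set of the factors of the infinite word `x` -/
def Language (x : ℕ → A) : Set (List A) := {w | ∃ i n, w = factorAt x i n}

/-- the number of (possibly overlapping) occurrences of `w` in `u`, i.e. of positions
`j ≤ |u| - |w|` such that the block of length `|w|` of `u` starting at `j` is `w` -/
def occurrences [DecidableEq A] (w u : List A) : ℕ :=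
  ((range (u.length + 1 - w.length)).filter (fun j => (u.drop j).take w.length = w)).card

/-- one constant bounds the difference of the numbers of occurrences of any factor in any two
factors of equal length -/
def UniformlyFactorBalanced [DecidableEq A] (x : ℕ → A) : Prop :=
  ∃ C : ℕ, ∀ w ∈ Language x, ∀ u ∈ Language x, ∀ v ∈ Language x, u.length = v.length →
    occurrences w u ≤ occurrences w v + C

/-- the factor complexity: the number of factors of length `n` -/
noncomputable def complexity (x : ℕ → A) (n : ℕ) : ℕ :=
  {w : List A | w ∈ Language x ∧ w.length = n}.ncard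

theorem length_factorAt (x : ℕ → A) (i n : ℕ) : (factorAt x i n).length = n := by
  simp [factorAt]

theorem drop_take (x : ℕ → A) (i m j n : ℕ) (hjn : j + n ≤ m) :
    ((factorAt x i m).drop j).take n = factorAt x (i + j) n := by
  apply List.ext_getElem
  · simp [factorAt]
    omega
  · intro t h1 h2
    simp [factorAt, add_assoc]

theorem factorAt_eq_iff (x : ℕ → A) (i i' n : ℕ) :
    factorAt x i n = factorAt x i' n ↔ ∀ t < n, x (i + t) = x (i' + t) := by
  unfold factorAt
  rw [List.map_inj_left]
  constructor
  · intro H t ht
    exact H t (List.mem_range.2 ht)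
  · intro H t ht
    exact H t (List.mem_range.1 ht)

theorem tau_lt' (p : ℕ) : tau 0 p < 2 ^ 20 := tau_lt 0 p

/-- the word -/
def word (p : ℕ) : Fin (2 ^ 20) := ⟨tau 0 p, tau_lt' p⟩

theorem word_eq_iff (p p' : ℕ) : word p = word p' ↔ tau 0 p = tau 0 p' := Fin.mk.injEq ..  ▸ Iff.rfl

theorem occurrences_eq (i0 n a m : ℕ) (hnm : n ≤ m) :
    (occurrences (factorAt word i0 n) (factorAt word a m) : ℝ) =
      ∑ c ∈ range (a + (m + 1 - n)), ind (Occ i0 n) c - ∑ c ∈ range a, ind (Occ i0 n) c := by
  classical
  rw [sum_range_add, add_sub_cancel_left]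
  unfold occurrences
  rw [length_factorAt, length_factorAt, card_filter]
  push_cast
  apply sum_congr rfl
  intro j hj
  rw [mem_range] at hj
  rw [drop_take _ _ _ _ _ (by omega)]
  have hiff : factorAt word (a + j) n = factorAt word i0 n ↔ Occ i0 n (a + j) := by
    rw [factorAt_eq_iff]
    unfold Occ
    constructor
    · intro H t ht
      exact (word_eq_iff _ _).1 (H t ht)
    · intro H t ht
      exact (word_eq_iff _ _).2 (H t ht)
  by_cases hc : Occ i0 n (a + j)
  · rw [if_pos (hiff.2 hc), ind_pos hc]
  · rw [if_neg (fun hh => hc (hiff.1 hh)), ind_neg hc]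

theorem occurrences_short [DecidableEq A] (x : ℕ → A) (i0 n a m : ℕ) (hnm : m < n) :
    occurrences (factorAt x i0 n) (factorAt x a m) = 0 := by
  unfold occurrences
  rw [length_factorAt, length_factorAt]
  have : m + 1 - n = 0 := by omega
  rw [this]
  simp

theorem balanced : UniformlyFactorBalanced word := by
  refine ⟨168, ?_⟩
  rintro w ⟨i0, n, rfl⟩ u ⟨a, m, rfl⟩ v ⟨a', m', rfl⟩ hlen
  rw [length_factorAt, length_factorAt] at hlen
  subst hlen
  by_cases hnm : n ≤ m
  · have h1 := occurrences_eq i0 n a m hnm
    have h2 := occurrences_eq i0 n a' m hnm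
    obtain ⟨d, hd⟩ := BD_occ i0 n
    have e1 := abs_le.1 (hd (a + (m + 1 - n)))
    have e2 := abs_le.1 (hd a)
    have e3 := abs_le.1 (hd (a' + (m + 1 - n)))
    have e4 := abs_le.1 (hd a')
    push_cast at e1 e3
    have h3 : (occurrences (factorAt word i0 n) (factorAt word a m) : ℝ) ≤
        occurrences (factorAt word i0 n) (factorAt word a' m) + 168 := by
      rw [h1, h2]
      linarith [e1.2, e2.1, e3.1, e4.2]
    exact_mod_cast h3
  · push Not at hnm
    rw [occurrences_short _ _ _ _ _ hnm]
    omega

theorem complexity_ge (k : ℕ) : h (k + 1) ≤ complexity word (4 * h k) := by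
  classical
  unfold complexity
  set F : Finset (List (Fin (2 ^ 20))) :=
    (range (h (k + 1))).image (fun i => factorAt word i (4 * h k)) with hF
  have hcard : F.card = h (k + 1) := by
    rw [hF, card_image_of_injOn, card_range]
    intro i hi i' hi' heq
    simp only [coe_range, Set.mem_Iio] at hi hi'
    have heq' : factorAt word i (4 * h k) = factorAt word i' (4 * h k) := heq
    rw [factorAt_eq_iff] at heq'
    have := recog k i i' (fun t ht => (word_eq_iff _ _).1 (heq' t ht))
    unfold Nat.ModEq at this
    rwa [Nat.mod_eq_of_lt hi, Nat.mod_eq_of_lt hi'] at this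
  have hfin : {w : List (Fin (2 ^ 20)) | w ∈ Language word ∧ w.length = 4 * h k}.Finite := by
    apply (List.finite_length_eq (Fin (2 ^ 20)) (4 * h k)).subset
    rintro w ⟨-, hw⟩
    exact hw
  rw [← hcard, ← Set.ncard_coe_finset]
  apply Set.ncard_le_ncard _ hfin
  intro w hw
  rw [hF, coe_image] at hw
  obtain ⟨i, -, rfl⟩ := hw
  exact ⟨⟨i, 4 * h k, rfl⟩, length_factorAt _ _ _⟩

/-- **Q1: yes.** There is a uniformly factor-balanced infinite word over a finite alphabet whose
factor complexity is superlinear. -/
theorem result : ∃ (a : ℕ) (x : ℕ → Fin a), UniformlyFactorBalanced x ∧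
    ∀ K : ℕ, ∃ n : ℕ, 1 ≤ n ∧ K * n < complexity x n := by
  refine ⟨2 ^ 20, word, balanced, fun K => ?_⟩
  refine ⟨4 * h K, by have := h_pos K; omega, ?_⟩
  refine lt_of_lt_of_le ?_ (complexity_ge K)
  have h1 : h (K + 1) = N K * h K := rfl
  have h2 : 4 * K < N K := by
    unfold N
    have h3 : 4 * K < 4 * 2 ^ K := by
      have := Nat.lt_two_pow_self (n := K)
      omega
    have h4 : 4 * 2 ^ K ≤ 2 ^ (2 * (K + 10)) := by
      have : 4 * 2 ^ K = 2 ^ (K + 2) := by ring
      rw [this]
      exact Nat.pow_le_pow_right (by norm_num) (by omega)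
    omega
  rw [h1]
  have h5 : K * (4 * h K) = 4 * K * h K := by ring
  rw [h5]
  exact Nat.mul_lt_mul_of_pos_right h2 (h_pos K)

end Pool.Agent.Results.MP_9e6215_co.SuperlinearWord
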